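import Pool.Agent.TH251.KK.InitB

/-!
# The initial family of light copies, k-th layer (`S_INIT`)
-/

set_option autoImplicit false

open Classical

namespace Pool.Agent.TH476.KK

namespace KInit

open Pool.Agent.TH476

section tree

variable {k : ℕ} {ι : Type}

/-- the node with the parent at the top -/
lemma exists_q0 (T : TE k ι) (U : Finset ι) (hU : AncC T U) (hne : (U.erase T.top).Nonempty) :
    ∃ q ∈ U.erase T.top, T.par q = T.top := by
  obtain ⟨q, hq, hmin⟩ := Finset.exists_min_image (U.erase T.top) T.dp hne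
  refine ⟨q, hq, ?_⟩
  by_contra hcon
  obtain ⟨h1, h2⟩ := Finset.mem_erase.1 hq
  have h3 := hmin (T.par q) (Finset.mem_erase.2 ⟨hcon, hU q h2 h1⟩)
  have h4 := T.dp_par q h1
  omega

/-- the predecessor of a coordinate -/
noncomputable def pc (T : TE k ι) (F : Finset ι) : ι ⊕ ι → ι ⊕ ι
  | Sum.inl x => if T.par x ∈ F then Sum.inl (T.par x) else Sum.inr x
  | Sum.inr q => Sum.inl q

/-- the layer of a coordinate -/
noncomputable def lc (T : TE k ι) : ι ⊕ ι → ℕ
  | Sum.inl x => if T.kb x then k + 1 - T.ps x else T.ps x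
  | Sum.inr q => if T.Cn q then (if T.kb q then k else 1) else (if T.kb q then 0 else k + 1)

/-- the shape of the set of nodes -/
structure Shp (T : TE k ι) (F : Finset ι) (q0 : ι) : Prop where
  top : T.top ∉ F
  mem : q0 ∈ F
  par : T.par q0 = T.top
  uni : ∀ x ∈ F, T.par x ∉ F → x = q0

variable {T : TE k ι} {F : Finset ι} {q0 : ι}

lemma shp_ne (h : Shp T F q0) {x : ι} (hx : x ∈ F) : x ≠ T.top := fun h' => h.top (h' ▸ hx)

lemma shp_Cn (h : Shp T F q0) : T.Cn q0 := T.topc q0 (shp_ne h h.mem) h.par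

lemma shp_Qn (h : Shp T F q0) : T.Qn q0 := Or.inl (shp_Cn h)

lemma shp_parF (h : Shp T F q0) : T.par q0 ∉ F := by
  rw [h.par]
  exact h.top

lemma ps_le (T : TE k ι) {x : ι} (hx : x ≠ T.top) : T.ps x ≤ k := by
  by_cases hc : T.Cn x
  · rw [T.C_ps x hc]
    exact Nat.zero_le _
  · exact (T.N_ps x hx hc).2.1

lemma Ln_not_Cn (T : TE k ι) {x : ι} (hx : T.Ln x) : ¬ T.Cn x := fun hc =>
  T.C_lg x hc ((T.L_iff x).1 hx).2.1

variable [Fintype ι]

lemma pc_mem (h : Shp T F q0) (c : ι ⊕ ι) (hc : c ∈ UC T F) : pc T F c ∈ UC T F := by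
  rcases c with x | q
  · have hx := (mem_UC_inl T F x).1 hc
    by_cases h1 : T.par x ∈ F
    · simp only [pc, h1, if_true]
      exact (mem_UC_inl T F _).2 h1
    · simp only [pc, h1, if_false]
      refine (mem_UC_inr T F _).2 ⟨hx, ?_⟩
      rw [h.uni x hx h1]
      exact shp_Qn h
  · have hq := (mem_UC_inr T F q).1 hc
    exact (mem_UC_inl T F _).2 hq.1

lemma rc_lt (h : Shp T F q0) (c : ι ⊕ ι) (hc : c ∈ UC T F) (hne : c ≠ Sum.inr q0) :
    rkc T F (pc T F c) < rkc T F c := by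
  rcases c with x | q
  · have hx := (mem_UC_inl T F x).1 hc
    by_cases h1 : T.par x ∈ F
    · have h2 := T.dp_par x (shp_ne h hx)
      simp only [pc, h1, if_true, rkc]
      omega
    · simp only [pc, h1, if_false, rkc]
      omega
  · have hq := (mem_UC_inr T F q).1 hc
    by_cases h1 : T.par q ∈ F
    · simp only [pc, rkc, h1, if_true]
      omega
    · exact absurd (by rw [h.uni q hq.1 h1]) hne

lemma lc_le (h : Shp T F q0) (c : ι ⊕ ι) (hc : c ∈ UC T F) : lc T c ≤ k + 1 := by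
  rcases c with x | q
  · have hx := (mem_UC_inl T F x).1 hc
    have h2 := ps_le T (shp_ne h hx)
    simp only [lc]
    split_ifs <;> omega
  · simp only [lc]
    split_ifs <;> omega

/-- the layer of the root of a node -/
lemma lc_root (h : Shp T F q0) (hk : 1 ≤ k) (x : ι) (hx : x ∈ F) (hQ : T.Qn x) :
    lc T (Sum.inl x) = lc T (Sum.inr x) + 1 ∨ lc T (Sum.inr x) = lc T (Sum.inl x) + 1 := by
  by_cases hc : T.Cn x
  · have h1 := T.C_ps x hc
    simp only [lc, hc, h1, if_true]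
    split_ifs <;> omega
  · have hL : T.Ln x := hQ.resolve_left hc
    have h1 := ((T.L_iff x).1 hL).2.2
    simp only [lc, hc, h1, if_false]
    split_ifs <;> omega

lemma lc_step (h : Shp T F q0) (hk : 1 ≤ k) (c : ι ⊕ ι) (hc : c ∈ UC T F)
    (hne : c ≠ Sum.inr q0) : lc T c = lc T (pc T F c) + 1 ∨ lc T (pc T F c) = lc T c + 1 := by
  rcases c with x | q
  · have hx := (mem_UC_inl T F x).1 hc
    have hxt := shp_ne h hx
    by_cases h1 : T.par x ∈ F
    · simp only [pc, h1, if_true]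
      have hpt := shp_ne h h1
      by_cases hcx : T.Cn x
      · obtain ⟨h2, h3, h4, h5⟩ := T.C_par x hcx hpt
        have h6 := T.C_ps x hcx
        simp only [lc, h6, h4, h5]
        cases T.kb (T.par x) <;> simp
      · obtain ⟨h2, h3, h4⟩ := T.N_ps x hxt hcx
        simp only [lc, h4, h2]
        split_ifs <;> omega
    · simp only [pc, h1, if_false]
      have h2 := h.uni x hx h1
      exact lc_root h hk x hx (by rw [h2]; exact shp_Qn h)
  · have hq := (mem_UC_inr T F q).1 hc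
    simp only [pc]
    exact (lc_root h hk q hq.1 hq.2).symm

lemma RR_of {V : Type} {R : ℕ → V → V → Prop} (x : ι) (hQ : T.Qn x) (a b : V)
    (h : RL R (lc T (Sum.inr x)) (lc T (Sum.inl x)) a b) : RR T R x a b := by
  unfold RR Stp
  by_cases hc : T.Cn x
  · have h1 := T.C_ps x hc
    rw [if_pos hc]
    simp only [lc, hc, h1, if_true] at h
    cases hb : T.kb x
    · simp only [hb, Bool.false_eq_true, if_false] at h ⊢
      rcases h with ⟨h2, h3⟩ | ⟨h2, h3⟩
      · omega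
      · exact h3
    · simp only [hb, if_true, Nat.sub_zero] at h ⊢
      rcases h with ⟨h2, h3⟩ | ⟨h2, h3⟩
      · exact h3
      · omega
  · have hL : T.Ln x := hQ.resolve_left hc
    have h1 := ((T.L_iff x).1 hL).2.2
    rw [if_neg hc]
    simp only [lc, hc, h1, if_false] at h
    cases hb : T.kb x
    · simp only [hb, Bool.false_eq_true, if_false] at h ⊢
      rcases h with ⟨h2, h3⟩ | ⟨h2, h3⟩
      · omega
      · exact h3
    · simp only [hb, if_true] at h ⊢
      rcases h with ⟨h2, h3⟩ | ⟨h2, h3⟩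
      · rw [Nat.sub_self]
        exact h3
      · omega

lemma ER_of {V : Type} {R : ℕ → V → V → Prop} (x : ι) (hx : x ≠ T.top) (hpx : T.par x ≠ T.top)
    (a b : V) (h : RL R (lc T (Sum.inl (T.par x))) (lc T (Sum.inl x)) a b) : ER T R x a b := by
  unfold ER Stp
  by_cases hc : T.Cn x
  · obtain ⟨h2, h3, h4, h5⟩ := T.C_par x hc hpx
    have h6 := T.C_ps x hc
    rw [if_pos hc]
    simp only [lc, h6, h4, h5] at h
    rw [h5]
    cases hb : T.kb (T.par x)
    · simp only [hb, Bool.not_false, Bool.false_eq_true, if_false, if_true, Nat.sub_zero] at h ⊢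
      rcases h with ⟨h7, h8⟩ | ⟨h7, h8⟩
      · exact h8
      · omega
    · simp only [hb, Bool.not_true, Bool.false_eq_true, if_false, if_true] at h ⊢
      rcases h with ⟨h7, h8⟩ | ⟨h7, h8⟩
      · omega
      · exact h8
  · obtain ⟨h2, h3, h4⟩ := T.N_ps x hx hc
    rw [if_neg hc]
    simp only [lc, h4] at h
    rw [h4]
    cases hb : T.kb (T.par x)
    · simp only [hb, Bool.false_eq_true, if_false] at h ⊢
      rcases h with ⟨h7, h8⟩ | ⟨h7, h8⟩
      · rw [h2, Nat.add_sub_cancel]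
        exact h8
      · omega
    · simp only [hb, if_true] at h ⊢
      rcases h with ⟨h7, h8⟩ | ⟨h7, h8⟩
      · omega
      · rw [show k - (T.ps x - 1) = k + 1 - T.ps x by omega]
        exact h8

lemma card_UC (h : Shp T F q0) : (UC T F).card = (FC T F).card + 1 := by
  have h1 : Sum.inr q0 ∉ FC T F := by
    rw [mem_FC_inr]
    exact fun h' => shp_parF h h'.2.2
  have h2 : UC T F = insert (Sum.inr q0) (FC T F) := by
    ext c
    rw [Finset.mem_insert]
    rcases c with x | q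
    · rw [mem_UC_inl, mem_FC_inl]
      constructor
      · exact fun h => Or.inr h
      · rintro (h' | h')
        · simp at h'
        · exact h'
    · rw [mem_UC_inr, mem_FC_inr]
      constructor
      · rintro ⟨hq, hQ⟩
        by_cases h3 : T.par q ∈ F
        · exact Or.inr ⟨hq, hQ, h3⟩
        · exact Or.inl (by rw [h.uni q hq h3])
      · rintro (h' | h')
        · rw [Sum.inr.inj h']
          exact ⟨h.mem, shp_Qn h⟩
        · exact ⟨h'.1, h'.2.1⟩
  rw [h2, Finset.card_insert_of_notMem h1]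

/-- the coordinates in use -/
abbrev UK (T : TE k ι) (F : Finset ι) : Type := {c : ι ⊕ ι // c ∈ UC T F}

/-- extension by a constant -/
noncomputable def xt {V : Type} (T : TE k ι) (F : Finset ι) (v0 : V) (h : UK T F → V) :
    ι ⊕ ι → V := fun c => if hc : c ∈ UC T F then h ⟨c, hc⟩ else v0

lemma xt_eq {V : Type} (T : TE k ι) (F : Finset ι) (v0 : V) (h : UK T F → V) (c : ι ⊕ ι)
    (hc : c ∈ UC T F) : xt T F v0 h c = h ⟨c, hc⟩ := by
  unfold xt
  rw [dif_pos hc]

/-- light injective good maps give members of the family -/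
lemma fam_of {V : Type} [Fintype V] (hF : Shp T F q0)
    (G : SimpleGraph V) {He : V → V → Prop} {R : ℕ → V → V → Prop} (hR : Hst G He k R) (v0 : V)
    (B : ℕ → V → V → Prop)
    (p : UK T F → UK T F) (hp : ∀ c, (p c).1 = pc T F c.1) (u0 : UK T F)
    (hu0 : u0.1 = Sum.inr q0) (rk : UK T F → ℕ) (hrk : ∀ v, v ≠ u0 → rk (p v) < rk v)
    (h : UK T F → V) (h1 : Function.Injective h) (h2 : LtH (PT p u0) k B h)
    (h3 : GdL R p u0 (fun c => lc T c.1) h) :
    Fam T G (ER T R) (RR T R) B v0 F (fun _ => h u0) (fun _ => True) (xt T F v0 h) := by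
  have hin : ∀ x ∈ F, (Sum.inl x : ι ⊕ ι) ∈ UC T F := fun x hx => (mem_UC_inl T F _).2 hx
  have hir : ∀ x ∈ F, T.Qn x → (Sum.inr x : ι ⊕ ι) ∈ UC T F := fun x hx hQ =>
    (mem_UC_inr T F _).2 ⟨hx, hQ⟩
  have hl0 : ∀ x (hx : (Sum.inl x : ι ⊕ ι) ∈ UC T F), (⟨Sum.inl x, hx⟩ : UK T F) ≠ u0 := by
    intro x hx he
    have := congrArg Subtype.val he
    rw [hu0] at this
    simp at this
  have hr0 : ∀ x (hx : (Sum.inr x : ι ⊕ ι) ∈ UC T F), T.par x ∈ F →
      (⟨Sum.inr x, hx⟩ : UK T F) ≠ u0 := by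
    intro x hx hpx he
    have := congrArg Subtype.val he
    rw [hu0] at this
    have h4 : x = q0 := Sum.inr.inj this
    rw [h4] at hpx
    exact shp_parF hF hpx
  -- the predecessors
  have e1 : ∀ x (hx : x ∈ F) (hpx : T.par x ∈ F), p ⟨Sum.inl x, hin x hx⟩ =
      ⟨Sum.inl (T.par x), hin _ hpx⟩ := by
    intro x hx hpx
    apply Subtype.ext
    rw [hp]
    simp [pc, hpx]
  have e2 : ∀ x (hx : x ∈ F) (hpx : T.par x ∉ F) (hQ : T.Qn x), p ⟨Sum.inl x, hin x hx⟩ =
      ⟨Sum.inr x, hir x hx hQ⟩ := by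
    intro x hx hpx hQ
    apply Subtype.ext
    rw [hp]
    simp [pc, hpx]
  have e3 : ∀ x (hx : x ∈ F) (hQ : T.Qn x), p ⟨Sum.inr x, hir x hx hQ⟩ =
      ⟨Sum.inl x, hin x hx⟩ := by
    intro x hx hQ
    apply Subtype.ext
    rw [hp]
    rfl
  have g1 : ∀ x (hx : x ∈ F) (hQ : T.Qn x), RL R (lc T (Sum.inr x)) (lc T (Sum.inl x))
      (h ⟨Sum.inr x, hir x hx hQ⟩) (h ⟨Sum.inl x, hin x hx⟩) := by
    intro x hx hQ
    by_cases hpx : T.par x ∈ F
    · have h4 := h3 ⟨Sum.inr x, hir x hx hQ⟩ (hr0 x _ hpx)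
      rw [e3 x hx hQ] at h4
      exact RL_symm h4
    · have h4 := h3 ⟨Sum.inl x, hin x hx⟩ (hl0 x _)
      rw [e2 x hx hpx hQ] at h4
      exact h4
  have g2 : ∀ x (hx : x ∈ F) (hpx : T.par x ∈ F), RL R (lc T (Sum.inl (T.par x)))
      (lc T (Sum.inl x)) (h ⟨Sum.inl (T.par x), hin _ hpx⟩) (h ⟨Sum.inl x, hin x hx⟩) := by
    intro x hx hpx
    have h4 := h3 ⟨Sum.inl x, hin x hx⟩ (hl0 x _)
    rw [e1 x hx hpx] at h4
    exact h4
  refine ⟨⟨?_, ?_, ?_, ?_⟩, ⟨?_, ?_⟩, ?_, ?_, trivial⟩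
  · intro x hx hQ
    rw [xt_eq T F v0 h _ (hir x hx hQ), xt_eq T F v0 h _ (hin x hx)]
    exact RL_adj hR (lc_le hF _ (hir x hx hQ)) (lc_le hF _ (hin x hx)) (g1 x hx hQ)
  · intro x hx hpx
    rw [xt_eq T F v0 h _ (hin _ hpx), xt_eq T F v0 h _ (hin x hx)]
    exact RL_adj hR (lc_le hF _ (hin _ hpx)) (lc_le hF _ (hin x hx)) (g2 x hx hpx)
  · intro c hc
    unfold xt
    rw [dif_neg hc]
  · intro q hq hpq
    have h4 := hF.uni q hq hpq
    subst h4
    rw [xt_eq T F v0 h _ (hir q hq (shp_Qn hF))]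
    congr 1
    exact Subtype.ext hu0.symm
  · intro x hx hQ
    show RR T R x (xt T F v0 h (Sum.inr x)) (xt T F v0 h (Sum.inl x))
    rw [xt_eq T F v0 h _ (hir x hx hQ), xt_eq T F v0 h _ (hin x hx)]
    exact RR_of x hQ _ _ (g1 x hx hQ)
  · intro x hx hpx
    show ER T R x (xt T F v0 h (Sum.inl (T.par x))) (xt T F v0 h (Sum.inl x))
    rw [xt_eq T F v0 h _ (hin _ hpx), xt_eq T F v0 h _ (hin x hx)]
    exact ER_of x (shp_ne hF hx) (shp_ne hF hpx) _ _ (g2 x hx hpx)
  · intro c hc c' hc' he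
    rw [xt_eq T F v0 h _ hc, xt_eq T F v0 h _ hc'] at he
    exact congrArg Subtype.val (h1 he)
  · have key : ∀ c d, Nb T F c d → ∃ (hc : c ∈ UC T F) (hd : d ∈ UC T F),
        (PT p u0).Adj ⟨c, hc⟩ ⟨d, hd⟩ := by
      have k1 : ∀ x (hx : x ∈ F) (hQ : T.Qn x),
          (PT p u0).Adj ⟨Sum.inl x, hin x hx⟩ ⟨Sum.inr x, hir x hx hQ⟩ := by
        intro x hx hQ
        rw [PT_adj p u0 rk hrk]
        by_cases hpx : T.par x ∈ F
        · exact Or.inl ⟨hr0 x _ hpx, (e3 x hx hQ).symm⟩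
        · exact Or.inr ⟨hl0 x _, (e2 x hx hpx hQ).symm⟩
      have k2 : ∀ x (hx : x ∈ F) (hpx : T.par x ∈ F),
          (PT p u0).Adj ⟨Sum.inl x, hin x hx⟩ ⟨Sum.inl (T.par x), hin _ hpx⟩ := by
        intro x hx hpx
        rw [PT_adj p u0 rk hrk]
        exact Or.inr ⟨hl0 x _, (e1 x hx hpx).symm⟩
      rintro c d (⟨x, hx, hQ, ⟨rfl, rfl⟩ | ⟨rfl, rfl⟩⟩ | ⟨x, hx, hpx, ⟨rfl, rfl⟩ | ⟨rfl, rfl⟩⟩)
      · exact ⟨hin x hx, hir x hx hQ, k1 x hx hQ⟩
      · exact ⟨hir x hx hQ, hin x hx, (k1 x hx hQ).symm⟩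
      · exact ⟨hin x hx, hin _ hpx, k2 x hx hpx⟩
      · exact ⟨hin _ hpx, hin x hx, (k2 x hx hpx).symm⟩
    intro j c hj1 hj2 hc
    obtain ⟨hc1, hc2⟩ := hc
    have hmem : ∀ i, c (min i j) ∈ UC T F := by
      intro i
      rcases Nat.lt_or_ge (min i j) j with h4 | h4
      · exact (key _ _ (hc1 _ h4)).1
      · have h5 : min i j = (j - 1) + 1 := by omega
        rw [h5]
        exact (key _ _ (hc1 (j - 1) (by omega))).2.1
    have h4 := h2 j (fun i => ⟨c (min i j), hmem i⟩) hj1 hj2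
      (fun i hi => by
        obtain ⟨h5, h6, h7⟩ := key _ _ (hc1 i hi)
        have e4 : (⟨c (min i j), hmem i⟩ : UK T F) = ⟨c i, h5⟩ :=
          Subtype.ext (congrArg c (Nat.min_eq_left hi.le))
        have e5 : (⟨c (min (i + 1) j), hmem (i + 1)⟩ : UK T F) = ⟨c (i + 1), h6⟩ :=
          Subtype.ext (congrArg c (Nat.min_eq_left (show i + 1 ≤ j from hi)))
        show (PT p u0).Adj (⟨c (min i j), hmem i⟩ : UK T F) ⟨c (min (i + 1) j), hmem (i + 1)⟩
        rw [e4, e5]
        exact h7)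
      (fun i i' hi hi' he => by
        have h5 := congrArg Subtype.val he
        simp only [Nat.min_eq_left hi, Nat.min_eq_left hi'] at h5
        exact hc2 i i' hi hi' h5)
    intro h5
    apply h4
    have m0 : c 0 ∈ UC T F := by
      have := hmem 0
      rwa [Nat.min_eq_left (Nat.zero_le j)] at this
    have mj : c j ∈ UC T F := by
      have := hmem j
      rwa [Nat.min_self] at this
    rw [xt_eq T F v0 h _ m0, xt_eq T F v0 h _ mj] at h5
    have e4 : (⟨c (min 0 j), hmem 0⟩ : UK T F) = ⟨c 0, m0⟩ :=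
      Subtype.ext (congrArg c (Nat.min_eq_left (Nat.zero_le j)))
    have e5 : (⟨c (min j j), hmem j⟩ : UK T F) = ⟨c j, mj⟩ :=
      Subtype.ext (congrArg c (Nat.min_self j))
    show B j (h ⟨c (min 0 j), hmem 0⟩) (h ⟨c (min j j), hmem j⟩)
    rw [e4, e5]
    exact h5

end tree

end KInit

open KInit Pool.Agent.TH476 in
theorem init_holds : S_INIT := by
  intro k hk ι _ T K hK Q hQ
  obtain ⟨M0, hM0⟩ : ∃ M0, M0 = Fintype.card (ι ⊕ ι) := ⟨_, rfl⟩
  obtain ⟨M, hM⟩ : ∃ M, M = Q * K ^ (k + 1) * Q ^ M0 := ⟨_, rfl⟩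
  have hMpos : 0 < M := by rw [hM]; positivity
  refine ⟨4 * M * ((k + 2) * (M0 + 1) ^ (k + 2) * K ^ M0) , 4 * M * (M0 + 1) ^ 2 * K ^ M0,
    by positivity, ?_⟩
  intro U hU V _ _ G D hG hD He R hR m hMD hDm hW B hB hFew v0
  by_cases hne : (U.erase T.top).Nonempty
  · obtain ⟨q0, hq0, hpq⟩ := exists_q0 T U hU hne
    have hS : Shp T (U.erase T.top) q0 := by
      refine ⟨Finset.notMem_erase _ _, hq0, hpq, ?_⟩
      intro x hx hpx
      obtain ⟨h1, h2⟩ := Finset.mem_erase.1 hx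
      refine T.top1 x q0 h1 (Finset.mem_erase.1 hq0).1 ?_ hpq
      by_contra h3
      exact hpx (Finset.mem_erase.2 ⟨h3, hU x h2 h1⟩)
    obtain ⟨F, hF⟩ : ∃ F, F = U.erase T.top := ⟨_, rfl⟩
    rw [← hF] at hS ⊢
    let p : UK T F → UK T F := fun c => ⟨pc T F c.1, pc_mem hS c.1 c.2⟩
    let u0 : UK T F := ⟨Sum.inr q0, (mem_UC_inr T F _).2 ⟨hS.mem, shp_Qn hS⟩⟩
    let rk : UK T F → ℕ := fun c => rkc T F c.1
    have hrk : ∀ v, v ≠ u0 → rk (p v) < rk v := fun v hv =>
      rc_lt hS v.1 v.2 (fun h => hv (Subtype.ext h))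
    have hcard : Fintype.card (UK T F) = (FC T F).card + 1 := by
      rw [← card_UC hS]
      exact Fintype.card_coe _
    have hf1 : 1 ≤ (FC T F).card :=
      Finset.card_pos.2 ⟨Sum.inl q0, (mem_FC_inl T F _).2 hS.mem⟩
    have hfm : (FC T F).card ≤ M0 := by
      rw [hM0]
      exact Finset.card_le_univ _
    have hD0 : 0 < D := lt_of_lt_of_le (by positivity) hD
    obtain ⟨𝓖, h1, h2⟩ := core_init p u0 rk hrk k (fun c => lc T c.1)
      (fun v => lc_le hS v.1 v.2)
      (fun v hv => lc_step hS hk v.1 v.2 (fun h => hv (Subtype.ext h))) G D K Q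
      (4 * M * ((k + 2) * (M0 + 1) ^ (k + 2) * K ^ M0)) (FC T F).card m M M0 hG hcard hf1 hfm
      hK hQ hD0 He R hR hMD hDm hW B hB hFew hM hD le_rfl
    refine ⟨𝓖.image (fun h => (h u0, xt T F v0 h)), ?_, ?_⟩
    · intro z hz
      obtain ⟨h, hh, rfl⟩ := Finset.mem_image.1 hz
      obtain ⟨k1, k2, k3⟩ := h1 h hh
      exact fam_of hS G hR v0 B p (fun _ => rfl) u0 rfl rk hrk h k1 k2 k3
    · rw [Finset.card_image_of_injective]
      · exact h2
      · intro h h' he
        have h3 : xt T F v0 h = xt T F v0 h' := (Prod.mk.inj he).2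
        funext c
        have h4 := congrFun h3 c.1
        rw [xt_eq T F v0 h _ c.2, xt_eq T F v0 h' _ c.2] at h4
        exact h4
  · rw [Finset.not_nonempty_iff_eq_empty] at hne
    rw [hne]
    have hUe : ∀ c : ι ⊕ ι, c ∉ UC T (∅ : Finset ι) := by
      rintro (x | x) hc
      · exact absurd ((mem_UC_inl T _ x).1 hc) (Finset.notMem_empty _)
      · exact absurd ((mem_UC_inr T _ x).1 hc).1 (Finset.notMem_empty _)
    refine ⟨Finset.univ.image (fun w => (w, fun _ => v0)), ?_, ?_⟩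
    · intro z hz
      obtain ⟨w, _, rfl⟩ := Finset.mem_image.1 hz
      refine ⟨⟨?_, ?_, ?_, ?_⟩, ⟨?_, ?_⟩, ?_, ?_, trivial⟩
      · intro x hx
        exact absurd hx (Finset.notMem_empty _)
      · intro x hx
        exact absurd hx (Finset.notMem_empty _)
      · intro c _
        rfl
      · intro x hx
        exact absurd hx (Finset.notMem_empty _)
      · intro x hx
        exact absurd hx (Finset.notMem_empty _)
      · intro x hx
        exact absurd hx (Finset.notMem_empty _)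
      · intro c hc
        exact absurd hc (hUe c)
      · intro j c hj1 hj2 hc
        rcases hc.1 0 (by omega) with ⟨x, hx, _⟩ | ⟨x, hx, _⟩
        · exact absurd hx (Finset.notMem_empty _)
        · exact absurd hx (Finset.notMem_empty _)
    · have h1 : (FC T (∅ : Finset ι)).card = 0 := by
        rw [Finset.card_eq_zero, Finset.eq_empty_iff_forall_notMem]
        intro c hc
        exact hUe c (FC_sub T _ hc)
      rw [h1, pow_zero, mul_one, Finset.card_image_of_injective _ (fun a b h => (Prod.mk.inj h).1),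
        Finset.card_univ]
      exact Nat.le_mul_of_pos_left _ (by positivity)

end Pool.Agent.TH476.KK
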