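import Pool.Agent.TH476.KCnt
import Pool.Agent.TH476.KStm2

/-!
# The initial family of light copies, k-th layer: counting in layered relations
-/

set_option autoImplicit false

open Classical

namespace Pool.Agent.TH476.KK

namespace KInit

open Pool.Agent.TH476

lemma cc {α : Type} [Fintype α] (s : Finset α) : (sᶜ).card = Fintype.card α - s.card :=
  Finset.card_compl s

lemma img_le {α β : Type} (s : Finset α) (f : α → β) (t : Finset β) (h : ∀ a ∈ s, f a ∈ t) :
    (s.image f).card ≤ t.card := by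
  refine Finset.card_le_card ?_
  intro b hb
  obtain ⟨a, ha, rfl⟩ := Finset.mem_image.1 hb
  exact h a ha

section layers

variable {V : Type}

/-- a occurs in layer i -/
def Occ (k : ℕ) (R : ℕ → V → V → Prop) (i : ℕ) (a : V) : Prop :=
  (i ≤ k ∧ ∃ b, R i a b) ∨ (1 ≤ i ∧ i ≤ k + 1 ∧ ∃ b, R (i - 1) b a)

/-- a in layer i, z in the adjacent layer j -/
def RL (R : ℕ → V → V → Prop) (i j : ℕ) (a z : V) : Prop :=
  (j = i + 1 ∧ R i a z) ∨ (i = j + 1 ∧ R j z a)

lemma RL_symm {R : ℕ → V → V → Prop} {i j : ℕ} {a z : V} (h : RL R i j a z) : RL R j i z a := by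
  rcases h with ⟨h1, h2⟩ | ⟨h1, h2⟩
  · exact Or.inr ⟨h1, h2⟩
  · exact Or.inl ⟨h1, h2⟩

lemma Occ_of_RL {k : ℕ} {R : ℕ → V → V → Prop} {i j : ℕ} {a z : V} (hi : i ≤ k + 1)
    (hj : j ≤ k + 1) (h : RL R i j a z) : Occ k R j z := by
  rcases h with ⟨h1, h2⟩ | ⟨h1, h2⟩
  · right
    refine ⟨by omega, hj, a, ?_⟩
    rw [h1, Nat.add_sub_cancel]
    exact h2
  · left
    exact ⟨by omega, a, h2⟩

lemma RL_adj {k : ℕ} {G : SimpleGraph V} {He : V → V → Prop} {R : ℕ → V → V → Prop}
    (hR : Hst G He k R) {i j : ℕ} {a z : V} (hi : i ≤ k + 1) (hj : j ≤ k + 1)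
    (h : RL R i j a z) : G.Adj a z := by
  rcases h with ⟨h1, h2⟩ | ⟨h1, h2⟩
  · exact (hR i (by omega) a z h2).1
  · exact (hR j (by omega) z a h2).1.symm

/-- the host relation is directed from even to odd layers -/
lemma RL_host {k : ℕ} {G : SimpleGraph V} {He : V → V → Prop} {R : ℕ → V → V → Prop}
    (hR : Hst G He k R) {i j : ℕ} {a z : V} (hi : i ≤ k + 1) (hj : j ≤ k + 1)
    (h : RL R i j a z) (he : i % 2 = 0) : He a z := by
  rcases h with ⟨h1, h2⟩ | ⟨h1, h2⟩
  · exact (hR i (by omega) a z h2).2.1 he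
  · exact (hR j (by omega) z a h2).2.2 (by omega)

lemma RL_par {R : ℕ → V → V → Prop} {i j : ℕ} {a z : V} (h : RL R i j a z) :
    i % 2 = 0 ↔ j % 2 = 1 := by
  rcases h with ⟨h1, _⟩ | ⟨h1, _⟩ <;> omega

lemma many [Fintype V] {k : ℕ} {R : ℕ → V → V → Prop} {m : ℕ} (hM : MinD k R m) {i j : ℕ} {a : V}
    (hi : i ≤ k + 1) (hj : j ≤ k + 1) (hij : j = i + 1 ∨ i = j + 1) (ho : Occ k R i a) :
    m ≤ (Finset.univ.filter (fun z => RL R i j a z)).card := by
  rcases hij with hij | hij
  · have h1 : m ≤ (Finset.univ.filter (fun c => R i a c)).card := by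
      rcases ho with ⟨_, b, hb⟩ | ⟨h2, h3, b, hb⟩
      · exact (hM i (by omega) a b hb).1
      · have h4 := (hM (i - 1) (by omega) b a hb).2.2.1 (by omega)
        rw [Nat.sub_add_cancel h2] at h4
        exact h4
    refine h1.trans (Finset.card_le_card ?_)
    intro c hc
    exact Finset.mem_filter.2 ⟨Finset.mem_univ _, Or.inl ⟨hij, (Finset.mem_filter.1 hc).2⟩⟩
  · have h1 : m ≤ (Finset.univ.filter (fun c => R j c a)).card := by
      have hj' : i - 1 = j := by omega
      rcases ho with ⟨h2, b, hb⟩ | ⟨h2, h3, b, hb⟩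
      · have h4 := (hM i h2 a b hb).2.2.2 (by omega)
        rw [hj'] at h4
        exact h4
      · have h4 := (hM (i - 1) (by omega) b a hb).2.1
        rw [hj'] at h4
        exact h4
    refine h1.trans (Finset.card_le_card ?_)
    intro c hc
    exact Finset.mem_filter.2 ⟨Finset.mem_univ _, Or.inr ⟨hij, (Finset.mem_filter.1 hc).2⟩⟩

/-- many vertices occur in every layer -/
lemma base_card [Fintype V] {k : ℕ} {G : SimpleGraph V} {D K : ℕ} (hG : AR G D K)
    {He : V → V → Prop} {R : ℕ → V → V → Prop} (hR : Hst G He k R) (j : ℕ) (hj : j ≤ k + 1) :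
    WW k R ≤ (K * D) ^ (k + 1) * (Finset.univ.filter (fun w => Occ k R j w)).card := by
  unfold WW
  obtain ⟨j', hj'⟩ : ∃ j' : Fin (k + 2), j'.val = j := ⟨⟨j, by omega⟩, rfl⟩
  have hhom : ∀ p ∈ (Finset.univ.filter (fun p : Fin (k + 2) → V =>
      ∀ i : Fin (k + 1), R i (p i.castSucc) (p i.succ))),
      Hom (SimpleGraph.pathGraph (k + 2)) G p := by
    intro p hp u v huv
    have h1 := (Finset.mem_filter.1 hp).2
    rw [SimpleGraph.pathGraph_adj] at huv
    rcases huv with huv | huv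
    · have h2 := h1 ⟨u.val, by omega⟩
      have e1 : (⟨u.val, by omega⟩ : Fin (k + 1)).castSucc = u := Fin.ext rfl
      have e2 : (⟨u.val, by omega⟩ : Fin (k + 1)).succ = v := Fin.ext huv
      rw [e1, e2] at h2
      exact (hR _ (by simp; omega) _ _ h2).1
    · have h2 := h1 ⟨v.val, by omega⟩
      have e1 : (⟨v.val, by omega⟩ : Fin (k + 1)).castSucc = v := Fin.ext rfl
      have e2 : (⟨v.val, by omega⟩ : Fin (k + 1)).succ = u := Fin.ext huv
      rw [e1, e2] at h2
      exact (hR _ (by simp; omega) _ _ h2).1.symm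
  have h1 := proj_le (SimpleGraph.pathGraph (k + 2))
    (SimpleGraph.pathGraph_connected (k + 1)) G D K hG {j'} ⟨j', by simp⟩
    (Finset.univ.filter (fun p : Fin (k + 2) → V =>
      ∀ i : Fin (k + 1), R i (p i.castSucc) (p i.succ))) hhom (fun p => p j')
    (fun φ _ ψ _ h u hu => by
      rw [Finset.mem_singleton.1 hu]
      exact h)
  rw [cc, Finset.card_singleton, Fintype.card_fin,
    show k + 2 - 1 = k + 1 from rfl] at h1
  refine h1.trans (Nat.mul_le_mul_left _ (Finset.card_le_card ?_))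
  intro w hw
  obtain ⟨p, hp, rfl⟩ := Finset.mem_image.1 hw
  have h2 := (Finset.mem_filter.1 hp).2
  refine Finset.mem_filter.2 ⟨Finset.mem_univ _, ?_⟩
  by_cases h3 : j ≤ k
  · left
    refine ⟨h3, p (⟨j, by omega⟩ : Fin (k + 1)).succ, ?_⟩
    have h4 := h2 ⟨j, by omega⟩
    have e1 : (⟨j, by omega⟩ : Fin (k + 1)).castSucc = j' := Fin.ext hj'.symm
    rw [e1] at h4
    exact h4
  · right
    have h5 : j = k + 1 := by omega
    refine ⟨by omega, hj, p (⟨k, by omega⟩ : Fin (k + 1)).castSucc, ?_⟩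
    have h4 := h2 ⟨k, by omega⟩
    have e1 : (⟨k, by omega⟩ : Fin (k + 1)).succ = j' := Fin.ext (by simp; omega)
    rw [e1] at h4
    rw [h5, Nat.add_sub_cancel]
    exact h4

end layers

section count

variable {κ V : Type} [Fintype κ] [Fintype V]

/-- the choices -/
noncomputable def chL (k : ℕ) (R : ℕ → V → V → Prop) (p : κ → κ) (la : κ → ℕ) (v : κ)
    (h : κ → V) : Finset V :=
  if Occ k R (la (p v)) (h (p v)) then
    Finset.univ.filter (fun z => RL R (la (p v)) (la v) (h (p v)) z) else Finset.univ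

/-- good maps -/
def GdL (R : ℕ → V → V → Prop) (p : κ → κ) (u0 : κ) (la : κ → ℕ) (h : κ → V) : Prop :=
  ∀ v, v ≠ u0 → RL R (la (p v)) (la v) (h (p v)) (h v)

lemma occ_all {k : ℕ} {R : ℕ → V → V → Prop} (p : κ → κ) (u0 : κ) (rk : κ → ℕ)
    (hp : ∀ v, v ≠ u0 → rk (p v) < rk v) (la : κ → ℕ) (hla : ∀ v, la v ≤ k + 1) (w : V)
    (hw : Occ k R (la u0) w) (h : κ → V) (hh : h ∈ EX (chL k R p la) {u0} (fun _ => w)) :
    ∀ (n : ℕ) (v : κ), rk v ≤ n → Occ k R (la v) (h v) := by
  rw [mem_EX] at hh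
  obtain ⟨h1, h2⟩ := hh
  have h0 : h u0 = w := h1 u0 (Finset.mem_singleton_self _)
  intro n
  induction n with
  | zero =>
    intro v hv
    by_cases hv0 : v = u0
    · rw [hv0, h0]
      exact hw
    · have := hp v hv0
      omega
  | succ n ih =>
    intro v hv
    by_cases hv0 : v = u0
    · rw [hv0, h0]
      exact hw
    · have h3 := ih (p v) (by have := hp v hv0; omega)
      have h4 := h2 v (by simpa using hv0)
      unfold chL at h4
      rw [if_pos h3] at h4
      exact Occ_of_RL (hla _) (hla _) (Finset.mem_filter.1 h4).2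

lemma edgeL {k : ℕ} {R : ℕ → V → V → Prop} (p : κ → κ) (u0 : κ) (rk : κ → ℕ)
    (hp : ∀ v, v ≠ u0 → rk (p v) < rk v) (la : κ → ℕ) (hla : ∀ v, la v ≤ k + 1) (w : V)
    (hw : Occ k R (la u0) w) (h : κ → V) (hh : h ∈ EX (chL k R p la) {u0} (fun _ => w)) :
    GdL R p u0 la h := by
  intro v hv0
  have h3 := occ_all p u0 rk hp la hla w hw h hh (rk (p v)) (p v) le_rfl
  rw [mem_EX] at hh
  have h4 := hh.2 v (by simpa using hv0)
  unfold chL at h4
  rw [if_pos h3] at h4
  exact (Finset.mem_filter.1 h4).2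

lemma count_geL {k : ℕ} {R : ℕ → V → V → Prop} {m : ℕ} (hM : MinD k R m) (p : κ → κ) (u0 : κ)
    (rk : κ → ℕ) (hp : ∀ v, v ≠ u0 → rk (p v) < rk v) (la : κ → ℕ) (hla : ∀ v, la v ≤ k + 1)
    (hst : ∀ v, v ≠ u0 → la v = la (p v) + 1 ∨ la (p v) = la v + 1) (f : ℕ)
    (hf : Fintype.card κ = f + 1) (hc : m ≤ Fintype.card V) :
    (Finset.univ.filter (fun w : V => Occ k R (la u0) w)).card * m ^ f ≤
      (Finset.univ.filter (fun h : κ → V => GdL R p u0 la h)).card := by
  obtain ⟨A, hA⟩ : ∃ A, A = Finset.univ.filter (fun w : V => Occ k R (la u0) w) := ⟨_, rfl⟩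
  rw [← hA]
  have h1 : ∀ w ∈ A, m ^ f ≤ ((Finset.univ.filter (fun h : κ → V => GdL R p u0 la h)).filter
      (fun h => h u0 = w)).card := by
    intro w hw
    rw [hA] at hw
    have hw' := (Finset.mem_filter.1 hw).2
    have h2 := ext_ge rk (chL k R p la) (fun _ => m) ({u0} : Finset κ)ᶜ.card {u0}
      (fun _ => w) rfl
      (fun v hv φ ψ h => by
        unfold chL
        rw [h (p v) (hp v (by simpa using hv))])
      (fun v hv φ => by
        unfold chL
        split_ifs with h3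
        · exact many hM (hla _) (hla _) (hst v (by simpa using hv)) h3
        · rw [Finset.card_univ]
          exact hc)
    rw [Finset.prod_const, Finset.card_compl, Finset.card_singleton, hf, Nat.add_sub_cancel] at h2
    refine h2.trans (Finset.card_le_card ?_)
    intro h hh
    rw [Finset.mem_filter, Finset.mem_filter]
    refine ⟨⟨Finset.mem_univ _, edgeL p u0 rk hp la hla w hw' h hh⟩, ?_⟩
    exact ((mem_EX _ _ _ _).1 hh).1 u0 (Finset.mem_singleton_self _)
  calc A.card * m ^ f = ∑ _w ∈ A, m ^ f := by rw [Finset.sum_const, smul_eq_mul]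
    _ ≤ ∑ w ∈ A, ((Finset.univ.filter (fun h : κ → V => GdL R p u0 la h)).filter
      (fun h => h u0 = w)).card := Finset.sum_le_sum h1
    _ = (A.biUnion (fun w => (Finset.univ.filter (fun h : κ → V => GdL R p u0 la h)).filter
      (fun h => h u0 = w))).card := by
        rw [Finset.card_biUnion]
        intro a _ b _ hab
        rw [Function.onFun, Finset.disjoint_left]
        intro h h3 h4
        exact hab (((Finset.mem_filter.1 h3).2).symm.trans (Finset.mem_filter.1 h4).2)
    _ ≤ _ := by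
        refine Finset.card_le_card ?_
        intro h hh
        obtain ⟨w, _, h3⟩ := Finset.mem_biUnion.1 hh
        exact (Finset.mem_filter.1 h3).1

/-- few homs contain a member of a small family of paths -/
lemma nl_le (H : SimpleGraph κ) (hH : H.Connected) (G : SimpleGraph V) (D K f k Q' : ℕ)
    (hG : AR G D K) (hK : 0 < K) (hf : Fintype.card κ = f + 1)
    (X : (j : ℕ) → Finset (Fin (j + 1) → V))
    (hX : ∀ j, 2 ≤ j → j ≤ k + 1 → (X j).card * Q' ≤ Fintype.card V * D ^ j)
    (𝓢 : Finset (κ → V)) (h1 : ∀ h ∈ 𝓢, Hom H G h)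
    (h2 : ∀ h ∈ 𝓢, ∃ j, 2 ≤ j ∧ j ≤ k + 1 ∧ ∃ c : Fin (j + 1) → κ, Function.Injective c ∧
      (fun i => h (c i)) ∈ X j) :
    𝓢.card * Q' ≤ (k + 2) * (f + 1) ^ (k + 2) * K ^ f * (Fintype.card V * D ^ f) := by
  have hsub : 𝓢 ⊆ (Finset.Icc 2 (k + 1)).biUnion (fun j =>
      ((Finset.univ : Finset (Fin (j + 1) → κ)).filter (fun c => Function.Injective c)).biUnion
        (fun c => 𝓢.filter (fun h => (fun i => h (c i)) ∈ X j))) := by
    intro h hh
    obtain ⟨j, h3, h4, c, h5, h6⟩ := h2 h hh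
    rw [Finset.mem_biUnion]
    refine ⟨j, Finset.mem_Icc.2 ⟨h3, h4⟩, ?_⟩
    rw [Finset.mem_biUnion]
    exact ⟨c, Finset.mem_filter.2 ⟨Finset.mem_univ _, h5⟩, Finset.mem_filter.2 ⟨hh, h6⟩⟩
  have hone : ∀ j ∈ Finset.Icc 2 (k + 1), ∀ c ∈
      ((Finset.univ : Finset (Fin (j + 1) → κ)).filter (fun c => Function.Injective c)),
      (𝓢.filter (fun h => (fun i => h (c i)) ∈ X j)).card * Q' ≤
        K ^ f * (Fintype.card V * D ^ f) := by
    intro j hj c hc
    have hc' := (Finset.mem_filter.1 hc).2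
    obtain ⟨hj1, hj2⟩ := Finset.mem_Icc.1 hj
    have hcard : (Finset.univ.image c).card = j + 1 := by
      rw [Finset.card_image_of_injective _ hc', Finset.card_univ, Fintype.card_fin]
    have hjf : j ≤ f := by
      have h3 : (Finset.univ.image c).card ≤ Fintype.card κ := Finset.card_le_univ _
      omega
    have h3 := proj_le H hH G D K hG (Finset.univ.image c) ⟨c 0, by simp⟩
      (𝓢.filter (fun h => (fun i => h (c i)) ∈ X j))
      (fun φ hφ => h1 φ (Finset.mem_filter.1 hφ).1) (fun h => fun i => h (c i))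
      (fun φ _ ψ _ h u hu => by
        obtain ⟨i, _, rfl⟩ := Finset.mem_image.1 hu
        exact congrFun h i)
    rw [Finset.card_compl, hcard, hf] at h3
    have h4 := img_le (𝓢.filter (fun h => (fun i => h (c i)) ∈ X j))
      (fun h => fun i => h (c i)) (X j) (fun h hh => (Finset.mem_filter.1 hh).2)
    obtain ⟨e, he⟩ : ∃ e, f = j + e := ⟨f - j, by omega⟩
    have he' : f + 1 - (j + 1) = e := by omega
    rw [he'] at h3
    calc (𝓢.filter (fun h => (fun i => h (c i)) ∈ X j)).card * Q'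
        ≤ ((K * D) ^ e * (X j).card) * Q' :=
          Nat.mul_le_mul_right _ (h3.trans (Nat.mul_le_mul_left _ h4))
      _ = (K * D) ^ e * ((X j).card * Q') := by ring
      _ ≤ (K * D) ^ e * (Fintype.card V * D ^ j) := Nat.mul_le_mul_left _ (hX j hj1 hj2)
      _ = K ^ e * (Fintype.card V * D ^ f) := by rw [he, mul_pow]; ring
      _ ≤ K ^ f * (Fintype.card V * D ^ f) :=
          Nat.mul_le_mul_right _ (Nat.pow_le_pow_right hK (by omega))
  have h3 : 𝓢.card ≤ ∑ j ∈ Finset.Icc 2 (k + 1), ∑ c ∈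
      ((Finset.univ : Finset (Fin (j + 1) → κ)).filter (fun c => Function.Injective c)),
      (𝓢.filter (fun h => (fun i => h (c i)) ∈ X j)).card :=
    (Finset.card_le_card hsub).trans (Finset.card_biUnion_le.trans
      (Finset.sum_le_sum fun j _ => Finset.card_biUnion_le))
  calc 𝓢.card * Q' ≤ (∑ j ∈ Finset.Icc 2 (k + 1), ∑ c ∈
      ((Finset.univ : Finset (Fin (j + 1) → κ)).filter (fun c => Function.Injective c)),
      (𝓢.filter (fun h => (fun i => h (c i)) ∈ X j)).card) * Q' := Nat.mul_le_mul_right _ h3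
    _ = ∑ j ∈ Finset.Icc 2 (k + 1), ∑ c ∈
      ((Finset.univ : Finset (Fin (j + 1) → κ)).filter (fun c => Function.Injective c)),
      (𝓢.filter (fun h => (fun i => h (c i)) ∈ X j)).card * Q' := by
        rw [Finset.sum_mul]
        exact Finset.sum_congr rfl fun j _ => Finset.sum_mul _ _ _
    _ ≤ ∑ j ∈ Finset.Icc 2 (k + 1), ∑ _c ∈
      ((Finset.univ : Finset (Fin (j + 1) → κ)).filter (fun c => Function.Injective c)),
      K ^ f * (Fintype.card V * D ^ f) :=
        Finset.sum_le_sum fun j hj => Finset.sum_le_sum fun c hc => hone j hj c hc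
    _ ≤ ∑ _j ∈ Finset.Icc 2 (k + 1), (f + 1) ^ (k + 2) * (K ^ f * (Fintype.card V * D ^ f)) := by
        refine Finset.sum_le_sum fun j hj => ?_
        rw [Finset.sum_const, smul_eq_mul]
        refine Nat.mul_le_mul_right _ ?_
        refine (Finset.card_le_univ _).trans ?_
        rw [Fintype.card_fun, Fintype.card_fin, hf]
        exact Nat.pow_le_pow_right (by omega) (by have := (Finset.mem_Icc.1 hj).2; omega)
    _ = (Finset.Icc 2 (k + 1)).card * ((f + 1) ^ (k + 2) *
          (K ^ f * (Fintype.card V * D ^ f))) := by rw [Finset.sum_const, smul_eq_mul]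
    _ ≤ (k + 2) * ((f + 1) ^ (k + 2) * (K ^ f * (Fintype.card V * D ^ f))) := by
        refine Nat.mul_le_mul_right _ ?_
        rw [Nat.card_Icc]
        omega
    _ = _ := by ring

end count

end KInit

end Pool.Agent.TH476.KK
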