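import Pool.Agent.TH251.KK.InitA

/-!
# The initial family of light copies, k-th layer: removal of the bad maps
-/

set_option autoImplicit false

open Classical

namespace Pool.Agent.TH476.KK

namespace KInit

open Pool.Agent.TH476

variable {κ V : Type}

/-- light maps -/
def LtH (H : SimpleGraph κ) (k : ℕ) (B : ℕ → V → V → Prop) (h : κ → V) : Prop :=
  ∀ (j : ℕ) (c : ℕ → κ), 2 ≤ j → j ≤ k + 1 → (∀ i, i < j → H.Adj (c i) (c (i + 1))) →
    (∀ i i', i ≤ j → i' ≤ j → c i = c i' → i = i') → ¬ B j (h (c 0)) (h (c j))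

lemma ex_le (j : ℕ) (p : Fin (j + 1) → V) (i : ℕ) (hi : i ≤ j) :
    ex j p i = p ⟨i, Nat.lt_succ_of_le hi⟩ := by
  unfold ex
  congr 1
  exact Fin.ext (Nat.min_eq_left hi)

/-- a rich path of the copy -/
lemma mk_path [Fintype V] {k : ℕ} {G : SimpleGraph V} {He : V → V → Prop}
    {R : ℕ → V → V → Prop} (hR : Hst G He k R) (B : ℕ → V → V → Prop) (H : SimpleGraph κ)
    (la : κ → ℕ) (hla : ∀ v, la v ≤ k + 1) (h : κ → V) (hinj : Function.Injective h)
    (hRL : ∀ u v, H.Adj u v → RL R (la u) (la v) (h u) (h v)) (j : ℕ) (c : ℕ → κ)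
    (h1 : ∀ i, i < j → H.Adj (c i) (c (i + 1)))
    (h2 : ∀ i i', i ≤ j → i' ≤ j → c i = c i' → i = i')
    (h3 : ∀ a b, a < b → b ≤ j → 2 ≤ b - a → b - a < j → ¬ B (b - a) (h (c a)) (h (c b)))
    (h4 : B j (h (c 0)) (h (c j))) (h5 : j % 2 = 1 → la (c 0) % 2 = 0) :
    (fun i : Fin (j + 1) => h (c i.val)) ∈ RCs G B j ∧
      (j % 2 = 1 → (fun i : Fin (j + 1) => h (c i.val)) ∈ RCh G B He j) := by
  have e : ∀ i, i ≤ j → ex j (fun i : Fin (j + 1) => h (c i.val)) i = h (c i) :=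
    fun i hi => ex_le j _ i hi
  have hs : (fun i : Fin (j + 1) => h (c i.val)) ∈ RCs G B j := by
    unfold RCs
    refine Finset.mem_filter.2 ⟨Finset.mem_univ _, ⟨?_, ?_, ?_⟩, ?_⟩
    · intro i hi
      rw [e i hi.le, e (i + 1) hi]
      exact RL_adj hR (hla _) (hla _) (hRL _ _ (h1 i hi))
    · intro i i' hi hi' he
      rw [e i hi, e i' hi'] at he
      exact h2 i i' hi hi' (hinj he)
    · intro a b hab hb h6 h7
      rw [e a (by omega), e b hb]
      exact h3 a b hab hb h6 h7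
    · rw [e 0 (Nat.zero_le _), e j le_rfl]
      exact h4
  refine ⟨hs, fun hj => ?_⟩
  unfold RCh
  refine Finset.mem_filter.2 ⟨hs, ?_⟩
  have hpar : ∀ i, i ≤ j → (la (c i) % 2 = 0 ↔ i % 2 = 0) := by
    intro i
    induction i with
    | zero =>
      intro _
      exact ⟨fun _ => rfl, fun _ => h5 hj⟩
    | succ i ih =>
      intro hi
      have h6 := ih (by omega)
      have h7 := RL_par (hRL _ _ (h1 i (by omega)))
      omega
  intro i hi
  rw [e i hi.le, e (i + 1) hi]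
  have h6 := hRL _ _ (h1 i hi)
  refine ⟨fun h7 => ?_, fun h7 => ?_⟩
  · exact RL_host hR (hla _) (hla _) h6 ((hpar i hi.le).2 h7)
  · exact RL_host hR (hla _) (hla _) (RL_symm h6) ((hpar (i + 1) hi).2 (by omega))

/-- a map which is not light contains a member of the families of rich paths -/
lemma bad_path [Fintype V] {k : ℕ} {G : SimpleGraph V} {He : V → V → Prop}
    {R : ℕ → V → V → Prop} (hR : Hst G He k R) (B : ℕ → V → V → Prop) (hB : BSy B)
    (H : SimpleGraph κ) (la : κ → ℕ) (hla : ∀ v, la v ≤ k + 1) (h : κ → V)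
    (hinj : Function.Injective h)
    (hRL : ∀ u v, H.Adj u v → RL R (la u) (la v) (h u) (h v)) (hn : ¬ LtH H k B h) :
    ∃ j, 2 ≤ j ∧ j ≤ k + 1 ∧ ∃ c : Fin (j + 1) → κ, Function.Injective c ∧
      (fun i => h (c i)) ∈ RCs G B j ∧ (j % 2 = 1 → (fun i => h (c i)) ∈ RCh G B He j) := by
  have hex : ∃ j, 2 ≤ j ∧ j ≤ k + 1 ∧ ∃ c : ℕ → κ, (∀ i, i < j → H.Adj (c i) (c (i + 1))) ∧
      (∀ i i', i ≤ j → i' ≤ j → c i = c i' → i = i') ∧ B j (h (c 0)) (h (c j)) := by
    by_contra hcon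
    apply hn
    intro j c h1 h2 h3 h4 h5
    exact hcon ⟨j, h1, h2, c, h3, h4, h5⟩
  obtain ⟨hj1, hj2, c, h1, h2, h4⟩ := Nat.find_spec hex
  have hmin := fun m (hm : m < Nat.find hex) => Nat.find_min hex hm
  obtain ⟨j, hj⟩ : ∃ j, j = Nat.find hex := ⟨_, rfl⟩
  rw [← hj] at hj1 hj2 h1 h2 h4 hmin
  have h3 : ∀ a b, a < b → b ≤ j → 2 ≤ b - a → b - a < j →
      ¬ B (b - a) (h (c a)) (h (c b)) := by
    intro a b hab hb h6 h7 h8
    refine hmin (b - a) h7 ⟨h6, by omega, fun i => c (a + i), ?_, ?_, ?_⟩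
    · intro i hi
      exact h1 (a + i) (by omega)
    · intro i i' hi hi' he
      have := h2 (a + i) (a + i') (by omega) (by omega) he
      omega
    · show B (b - a) (h (c (a + 0))) (h (c (a + (b - a))))
      rw [Nat.add_zero, Nat.add_sub_cancel' hab.le]
      exact h8
  by_cases hpar : j % 2 = 1 → la (c 0) % 2 = 0
  · obtain ⟨h6, h7⟩ := mk_path hR B H la hla h hinj hRL j c h1 h2 h3 h4 hpar
    refine ⟨j, hj1, hj2, fun i => c i.val, ?_, h6, h7⟩
    intro i i' he
    exact Fin.ext (h2 i.val i'.val (by omega) (by omega) he)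
  · push Not at hpar
    obtain ⟨hodd, hp0⟩ := hpar
    -- the parity of the last layer
    have hpar : ∀ i, i ≤ j → (la (c i) % 2 = 0 ↔ i % 2 = 1) := by
      intro i
      induction i with
      | zero =>
        intro _
        exact ⟨fun h => absurd h hp0, fun h => absurd h (by decide)⟩
      | succ i ih =>
        intro hi
        have h6 := ih (by omega)
        have h7 := RL_par (hRL _ _ (h1 i (by omega)))
        omega
    obtain ⟨h6, h7⟩ := mk_path hR B H la hla h hinj hRL j (fun i => c (j - i))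
      (fun i hi => by
        have h8 := h1 (j - (i + 1)) (by omega)
        rw [show j - (i + 1) + 1 = j - i by omega] at h8
        exact h8.symm)
      (fun i i' hi hi' he => by
        have := h2 (j - i) (j - i') (by omega) (by omega) he
        omega)
      (fun a b hab hb h8 h9 h10 => by
        have h11 := h3 (j - b) (j - a) (by omega) (by omega) (by omega) (by omega)
        rw [show j - a - (j - b) = b - a by omega] at h11
        exact h11 (hB _ _ _ h10))
      (by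
        show B j (h (c (j - 0))) (h (c (j - j)))
        rw [Nat.sub_zero, Nat.sub_self]
        exact hB _ _ _ h4)
      (fun _ => by
        show la (c (j - 0)) % 2 = 0
        rw [Nat.sub_zero]
        exact (hpar j le_rfl).2 hodd)
    refine ⟨j, hj1, hj2, fun i => c (j - i.val), ?_, h6, h7⟩
    intro i i' he
    have := h2 (j - i.val) (j - i'.val) (by omega) (by omega) he
    exact Fin.ext (by omega)

/-- the light injective good maps -/
lemma core_init [Fintype κ] [Fintype V] [Nonempty V] (p : κ → κ) (u0 : κ) (rk : κ → ℕ)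
    (hp : ∀ v, v ≠ u0 → rk (p v) < rk v) (k : ℕ) (la : κ → ℕ) (hla : ∀ v, la v ≤ k + 1)
    (hst : ∀ v, v ≠ u0 → la v = la (p v) + 1 ∨ la (p v) = la v + 1)
    (G : SimpleGraph V) (D K Q Q' f m M M0 : ℕ) (hG : AR G D K)
    (hf : Fintype.card κ = f + 1) (hf1 : 1 ≤ f) (hfm : f ≤ M0) (hK : 0 < K) (hQ : 0 < Q)
    (hD0 : 0 < D) (He : V → V → Prop) (R : ℕ → V → V → Prop) (hR : Hst G He k R)
    (hM : MinD k R m) (hDm : D ≤ Q * m) (hW : Fintype.card V * D ^ (k + 1) ≤ Q * WW k R)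
    (B : ℕ → V → V → Prop) (hB : BSy B) (hFew : Few G k B He Q' D)
    (hMd : M = Q * K ^ (k + 1) * Q ^ M0)
    (hD : 4 * M * (M0 + 1) ^ 2 * K ^ M0 ≤ D)
    (hQ' : 4 * M * ((k + 2) * (M0 + 1) ^ (k + 2) * K ^ M0) ≤ Q') :
    ∃ 𝓖 : Finset (κ → V), (∀ h ∈ 𝓖, Function.Injective h ∧ LtH (PT p u0) k B h ∧
      GdL R p u0 la h) ∧ Fintype.card V * D ^ f ≤ Q' * 𝓖.card := by
  obtain ⟨N, hN⟩ : ∃ N, N = Fintype.card V := ⟨_, rfl⟩
  have hNpos : 0 < N := by rw [hN]; exact Fintype.card_pos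
  -- the layer of the base
  have hA1 := base_card hG hR (la u0) (hla u0)
  obtain ⟨A, hA⟩ : ∃ A, A = Finset.univ.filter (fun w : V => Occ k R (la u0) w) := ⟨_, rfl⟩
  rw [← hA] at hA1
  have hAc : N ≤ Q * K ^ (k + 1) * A.card := by
    have h1 : N * D ^ (k + 1) ≤ (Q * K ^ (k + 1) * A.card) * D ^ (k + 1) := by
      calc N * D ^ (k + 1) ≤ Q * WW k R := by rw [hN]; exact hW
        _ ≤ Q * ((K * D) ^ (k + 1) * A.card) := Nat.mul_le_mul_left _ hA1
        _ = _ := by rw [mul_pow]; ring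
    exact Nat.le_of_mul_le_mul_right h1 (by positivity)
  have hmN : m ≤ Fintype.card V := by
    have h1 : 0 < Q * WW k R := by
      refine lt_of_lt_of_le ?_ hW
      rw [← hN]
      positivity
    have h2 : 0 < WW k R := Nat.pos_of_mul_pos_left h1 |> fun h => by
      rcases Nat.eq_zero_or_pos (WW k R) with h3 | h3
      · rw [h3] at h1
        simp at h1
      · exact h3
    unfold WW at h2
    obtain ⟨q, hq⟩ := Finset.card_pos.1 h2
    have h3 := (Finset.mem_filter.1 hq).2 0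
    exact (hM _ (Nat.zero_le _) _ _ h3).1.trans (Finset.card_le_univ _)
  have hcnt := count_geL hM p u0 rk hp la hla hst f hf hmN
  rw [← hA] at hcnt
  obtain ⟨𝓗, h𝓗⟩ : ∃ 𝓗, 𝓗 = Finset.univ.filter (fun h : κ → V => GdL R p u0 la h) := ⟨_, rfl⟩
  rw [← h𝓗] at hcnt
  have hMpos : 0 < M := by rw [hMd]; positivity
  have hbig : N * D ^ f ≤ M * 𝓗.card := by
    calc N * D ^ f ≤ (Q * K ^ (k + 1) * A.card) * (Q * m) ^ f :=
          Nat.mul_le_mul hAc (Nat.pow_le_pow_left hDm f)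
      _ = (Q * K ^ (k + 1) * Q ^ f) * (A.card * m ^ f) := by rw [mul_pow]; ring
      _ ≤ (Q * K ^ (k + 1) * Q ^ M0) * 𝓗.card := by
          refine Nat.mul_le_mul (Nat.mul_le_mul_left _ ?_) hcnt
          exact Nat.pow_le_pow_right hQ hfm
      _ = M * 𝓗.card := by rw [hMd]
  -- adjacency
  have hRL : ∀ h ∈ 𝓗, ∀ u v, (PT p u0).Adj u v → RL R (la u) (la v) (h u) (h v) := by
    intro h hh u v huv
    rw [h𝓗] at hh
    have h1 := (Finset.mem_filter.1 hh).2
    rcases (PT_adj p u0 rk hp u v).1 huv with ⟨h2, h3⟩ | ⟨h2, h3⟩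
    · rw [h3]
      exact h1 v h2
    · rw [h3]
      exact RL_symm (h1 u h2)
  have hHom : ∀ h ∈ 𝓗, Hom (PT p u0) G h := by
    intro h hh u v huv
    exact RL_adj hR (hla _) (hla _) (hRL h hh u v huv)
  obtain ⟨n1, hn1⟩ : ∃ n1, n1 = (Finset.univ.filter (fun φ : κ → V => Hom (PT p u0) G φ ∧
    ¬ Function.Injective φ)).card := ⟨_, rfl⟩
  obtain ⟨𝓢, h𝓢⟩ : ∃ 𝓢, 𝓢 = 𝓗.filter (fun φ : κ → V => Function.Injective φ ∧
    ¬ LtH (PT p u0) k B φ) := ⟨_, rfl⟩
  have hb1 : n1 ≤ (f + 1) ^ 2 * (N * (K * D) ^ (f - 1)) := by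
    have h1 := noninj_le (PT p u0) (PT_conn p u0 rk hp) G D K hG
    rw [← hn1, hf, ← hN, show f + 1 - 2 = f - 1 by omega] at h1
    exact h1
  have hKm : ∀ j, j ≤ M0 → K ^ j ≤ K ^ M0 := fun j hj => Nat.pow_le_pow_right hK hj
  have hb1' : 4 * M * n1 ≤ N * D ^ f := by
    obtain ⟨e, he⟩ : ∃ e, f = e + 1 := ⟨f - 1, by omega⟩
    subst he
    rw [Nat.add_sub_cancel] at hb1
    calc 4 * M * n1 ≤ 4 * M * ((e + 1 + 1) ^ 2 * (N * (K * D) ^ e)) :=
          Nat.mul_le_mul_left _ hb1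
      _ = (4 * M * (e + 1 + 1) ^ 2 * K ^ e) * (N * D ^ e) := by rw [mul_pow]; ring
      _ ≤ (4 * M * (M0 + 1) ^ 2 * K ^ M0) * (N * D ^ e) := by
          refine Nat.mul_le_mul_right _ (Nat.mul_le_mul (Nat.mul_le_mul_left _ ?_)
            (hKm e (by omega)))
          exact Nat.pow_le_pow_left (by omega) 2
      _ ≤ D * (N * D ^ e) := Nat.mul_le_mul_right _ hD
      _ = N * D ^ (e + 1) := by ring
  -- not light
  obtain ⟨E, hE⟩ : ∃ E, E = (k + 2) * (M0 + 1) ^ (k + 2) * K ^ M0 := ⟨_, rfl⟩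
  have hEpos : 0 < E := by rw [hE]; positivity
  have hb2 : 𝓢.card * Q' ≤ E * (N * D ^ f) := by
    have h1 := nl_le (PT p u0) (PT_conn p u0 rk hp) G D K f k Q' hG hK hf
      (fun j => if (RCs G B j).card * Q' ≤ Fintype.card V * D ^ j then RCs G B j
        else RCh G B He j)
      (fun j h2 h3 => by
        by_cases h4 : (RCs G B j).card * Q' ≤ Fintype.card V * D ^ j
        · simp only [if_pos h4]
          exact h4
        · simp only [if_neg h4]
          rcases hFew j h2 h3 with h5 | h5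
          · exact absurd h5 h4
          · exact h5.2) 𝓢
      (fun h hh => hHom h (by rw [h𝓢] at hh; exact (Finset.mem_filter.1 hh).1))
      (fun h hh => by
        rw [h𝓢] at hh
        obtain ⟨h2, h3, h4⟩ := Finset.mem_filter.1 hh
        obtain ⟨j, h5, h6, c, h7, h8, h9⟩ :=
          bad_path hR B hB (PT p u0) la hla h h3 (hRL h h2) h4
        refine ⟨j, h5, h6, c, h7, ?_⟩
        by_cases h10 : (RCs G B j).card * Q' ≤ Fintype.card V * D ^ j
        · simp only [if_pos h10]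
          exact h8
        · simp only [if_neg h10]
          rcases hFew j h5 h6 with h11 | h11
          · exact absurd h11 h10
          · exact h9 h11.1)
    refine h1.trans ?_
    rw [← hN]
    refine Nat.mul_le_mul_right _ ?_
    rw [hE]
    exact Nat.mul_le_mul (Nat.mul_le_mul_left _ (Nat.pow_le_pow_left (by omega) _))
      (hKm f hfm)
  have hb2' : 4 * M * 𝓢.card ≤ N * D ^ f := by
    have h1 : E * (4 * M * 𝓢.card) ≤ E * (N * D ^ f) := by
      calc E * (4 * M * 𝓢.card) = 𝓢.card * (4 * M * E) := by ring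
        _ ≤ 𝓢.card * Q' := Nat.mul_le_mul_left _ (by rw [hE]; exact hQ')
        _ ≤ _ := hb2
    exact Nat.le_of_mul_le_mul_left h1 hEpos
  refine ⟨𝓗.filter (fun h => Function.Injective h ∧ LtH (PT p u0) k B h), ?_, ?_⟩
  · intro h hh
    obtain ⟨h1, h2, h3⟩ := Finset.mem_filter.1 hh
    rw [h𝓗] at h1
    exact ⟨h2, h3, (Finset.mem_filter.1 h1).2⟩
  · obtain ⟨s, hs'⟩ : ∃ s, s = (𝓗.filter (fun h => Function.Injective h ∧
      LtH (PT p u0) k B h)).card := ⟨_, rfl⟩
    rw [← hs', ← hN]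
    have h1 : 𝓗.card ≤ s + (n1 + 𝓢.card) := by
      rw [hs', hn1, h𝓢]
      refine le_trans (Finset.card_le_card ?_) ((Finset.card_union_le _ _).trans
        (Nat.add_le_add_left (Finset.card_union_le _ _) _))
      intro h hh
      have h2 := hHom h hh
      by_cases hi : Function.Injective h
      · by_cases hl : LtH (PT p u0) k B h
        · exact Finset.mem_union.2 (Or.inl (Finset.mem_filter.2 ⟨hh, hi, hl⟩))
        · exact Finset.mem_union.2 (Or.inr (Finset.mem_union.2 (Or.inr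
            (Finset.mem_filter.2 ⟨hh, hi, hl⟩))))
      · exact Finset.mem_union.2 (Or.inr (Finset.mem_union.2 (Or.inl
          (Finset.mem_filter.2 ⟨Finset.mem_univ _, h2, hi⟩))))
    have h2 : M * 𝓗.card ≤ M * (s + (n1 + 𝓢.card)) := Nat.mul_le_mul_left _ h1
    have h3 : N * D ^ f ≤ 2 * M * s := by nlinarith
    refine h3.trans (Nat.mul_le_mul_right _ (le_trans ?_ hQ'))
    have h4 : 0 < (k + 2) * (M0 + 1) ^ (k + 2) * K ^ M0 := by positivity
    calc 2 * M ≤ 4 * M := by omega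
      _ ≤ 4 * M * ((k + 2) * (M0 + 1) ^ (k + 2) * K ^ M0) := Nat.le_mul_of_pos_right _ h4

end KInit

end Pool.Agent.TH476.KK
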